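import Pool.Agent.Helper93.TCU.Stmts
import Pool.Agent.Helper93.TCU.Bas

/-!
# One step of the nibble with tests (helper2 for helper93)
-/

set_option autoImplicit false

namespace Pool.TCU

open Pool.TC Pool.TCM Pool.TCS Finset
open scoped Classical

section step

variable {V κ : Type} [Fintype V] [Fintype κ] {S : CS V κ} {U : Finset V} {L : V → Finset κ}
  {D l m K : ℕ} {x : ℝ} {q : V → κ → ℝ} {Lam : ℝ}

private theorem Step2_sqrt (h : Hyp S U L D l m K x q Lam) :
    Real.sqrt (Lam / l) * l = Real.sqrt (l * Lam) := by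
  have hl := h.lpos
  have h1 : (l : ℝ) * Lam = Lam / l * (l : ℝ) ^ 2 := by field_simp
  rw [h1, Real.sqrt_mul (div_nonneg h.Lpos.le hl.le), Real.sqrt_sq hl.le]

private theorem Step2_sqrt_ge (h : Hyp S U L D l m K x q Lam) : 1 ≤ Real.sqrt (l * Lam) := by
  rw [Real.one_le_sqrt]
  have h1 := h.L1
  have h2 := h.l1
  nlinarith

/-- the last item: real numbers -/
private theorem Step2_num {β K μ A X Lam n : ℝ} (hβ : 0 ≤ β) (hβ' : β ≤ 1 / 192) (hK : 24 ≤ K)
    (hμ : 0 ≤ μ) (hL : 1 ≤ Lam) (hn : 0 ≤ n) (hA : A = μ * n)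
    (hX : X ≤ n + 3 * Real.sqrt ((A + Lam * μ ^ 2) * Lam)) :
    β * X + 4 * K * Real.sqrt (μ * X * Lam) ≤
      β * n + 12 * K * Real.sqrt ((A + Lam * μ ^ 2) * Lam) := by
  have hA0 : 0 ≤ A := by
    rw [hA]
    positivity
  have hL0 : 0 ≤ Lam := by linarith
  have hY : 0 ≤ (A + Lam * μ ^ 2) * Lam := by positivity
  obtain ⟨R, hR⟩ : ∃ R, R = Real.sqrt ((A + Lam * μ ^ 2) * Lam) := ⟨_, rfl⟩
  have hR0 : 0 ≤ R := by
    rw [hR]
    exact Real.sqrt_nonneg _
  have hR2 : R ^ 2 = (A + Lam * μ ^ 2) * Lam := by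
    rw [hR, Real.sq_sqrt hY]
  rw [← hR] at hX ⊢
  have h1 : μ * Lam ≤ R := by
    apply le_of_sq_le_sq _ hR0
    rw [hR2]
    nlinarith [mul_nonneg hA0 hL0]
  have h2 : μ * X * Lam ≤ (2 * R) ^ 2 := by
    have h3 : μ * X * Lam ≤ μ * Lam * (n + 3 * R) := by
      have := mul_le_mul_of_nonneg_left hX (mul_nonneg hμ hL0)
      linarith
    have h4 : μ * Lam * n ≤ R ^ 2 := by
      rw [hR2, hA]
      nlinarith [mul_nonneg hL0 (mul_nonneg hL0 (sq_nonneg μ))]
    have h5 : μ * Lam * R ≤ R ^ 2 := by nlinarith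
    nlinarith
  have h3 : Real.sqrt (μ * X * Lam) ≤ 2 * R := by
    apply Real.sqrt_le_iff.2
    exact ⟨by linarith, h2⟩
  have h4 : β * X ≤ β * n + β * (3 * R) := by
    have := mul_le_mul_of_nonneg_left hX hβ
    linarith
  have h5 : 4 * K * Real.sqrt (μ * X * Lam) ≤ 4 * K * (2 * R) :=
    mul_le_mul_of_nonneg_left h3 (by linarith)
  have h6 : β * (3 * R) ≤ 1 / 192 * (3 * R) := mul_le_mul_of_nonneg_right hβ' (by linarith)
  nlinarith [mul_nonneg (sub_nonneg.2 hK) hR0]

end step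

/-- STEP. -/
theorem thm_Step2 (hCh : St_Choice) (hAc : St_Acti) : St_Step2 := by
  intro V κ J _ _ _ _ S U L M D l m K x q Lam ctr T μ hH hT
  obtain ⟨o, hG⟩ := hCh V κ J S U L M D l m K x q Lam ctr T μ hH hT
  obtain ⟨ω, a1, a2, a3, a4⟩ := hAc V κ J S U L M D l m K x q Lam ctr T μ o hH hT hG.cho
  have hl := hH.lpos
  have hK := hH.Kpos
  have hb := hH.bet_pos
  have hb' := hH.bet_le'
  have hs := Step2_sqrt hH
  have hs1 := Step2_sqrt_ge hH
  have hEr : Er K Lam l * l = 2 ^ 18 * ((1 / 2) ^ K * l) +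
      128 * ((K : ℝ) ^ 2 * Real.sqrt (l * Lam)) := by
    rw [← hs]
    unfold Er
    ring
  have hq : (1 / 4 : ℝ) ^ K ≤ (1 / 2) ^ K := pow_le_pow_left₀ (by norm_num) (by norm_num) K
  have hK2 : (24 : ℝ) ^ 2 ≤ (K : ℝ) ^ 2 := pow_le_pow_left₀ (by norm_num) hK 2
  have hKS : 24 ^ 2 * Real.sqrt (l * Lam) ≤ (K : ℝ) ^ 2 * Real.sqrt (l * Lam) :=
    mul_le_mul_of_nonneg_right hK2 (by linarith)
  have hKK : (K : ℝ) ^ 2 ≤ (K : ℝ) ^ 2 * Real.sqrt (l * Lam) :=
    le_mul_of_one_le_right (by positivity) hs1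
  have hQ : (1 / 4 : ℝ) ^ K * l ≤ (1 / 2) ^ K * l := mul_le_mul_of_nonneg_right hq hl.le
  have hQ0 : 0 < (1 / 2 : ℝ) ^ K * l := by positivity
  have hB : ∀ u, u ∈ U.filter (fun u => retv S U o m K ω u) ↔ retv S U o m K ω u := by
    intro u
    rw [mem_filter]
    exact ⟨fun h => h.2, fun h => ⟨h.1, h⟩⟩
  have hbb : ∀ u w, retv S U o m K ω u → retv S U o m K ω w → ¬ conf S o u w :=
    fun u w hu hw hc => hu.2.2.2 w hw.1 hc hw.2.1
  refine ⟨U.filter (fun u => retv S U o m K ω u), o,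
    fun u => (L u).filter (fun a => alive S U L l m K x q o ω u a), filter_subset _ _,
    ?_, ?_, ?_, fun u _ => filter_subset _ _, ?_, ?_, ?_, ?_, ?_⟩
  · intro u hu
    exact hG.cho.mem u (mem_filter.1 hu).1
  · intro u hu w hw hne he
    exact hbb u w ((hB u).1 hu) ((hB w).1 hw) ⟨hne, Or.inr he⟩
  · intro u hu w hw hadj he
    refine hbb u w ((hB u).1 hu) ((hB w).1 hw) ⟨?_, Or.inl ⟨hadj, he⟩⟩
    rintro rfl
    exact S.irr u hadj
  · intro u hu w hw hne a ha
    obtain ⟨-, hnP, hnR, -, -⟩ := mem_filter.1 ha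
    have hr := (hB w).1 hw
    refine ⟨fun h => ?_, fun h => ?_⟩
    · exact hnP w (by rw [KP, mem_filter]; exact ⟨mem_univ _, hr.1, h.1, h.2⟩) hr
    · exact hnR w (by rw [KR, mem_filter]; exact ⟨mem_univ _, hr.1, hne, h⟩) hr
  · intro u hu
    have h1 := a1 u hu
    have h2 := hG.c1 u hu
    have h5 : ((((L u).filter (fun a => alive S U L l m K x q o ω u a)) ∩ M u).card : ℝ) =
        G1 S U L M l m K x q o u ω := by
      unfold G1
      rw [filter_inter]
    rw [h5, hEr]
    have h6 : (2 : ℝ) ^ 18 * (1 / 4) ^ K * l ≤ 2 ^ 18 * ((1 / 2) ^ K * l) := by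
      rw [mul_assoc]
      exact mul_le_mul_of_nonneg_left hQ (by norm_num)
    nlinarith
  · intro v
    have h0 : ((((Cv S U L v).filter (fun p => p.1 ∉ U.filter (fun u => retv S U o m K ω u) ∧
        p.2 ∈ (L p.1).filter (fun a => alive S U L l m K x q o ω p.1 a))).card : ℕ) : ℝ) ≤
        G2 S U L l m K q o v ω := by
      unfold G2
      refine Nat.cast_le.2 (card_le_card ?_)
      intro p hp
      rw [mem_filter] at hp ⊢
      obtain ⟨h1, h2, h3⟩ := hp
      obtain ⟨-, h4, -, -, h5⟩ := mem_filter.1 h3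
      exact ⟨h1, fun h => h2 ((hB p.1).2 h), h4, h5⟩
    have h1 := a2 v
    have h2 := hG.c2 v
    refine h0.trans ?_
    rw [hEr]
    nlinarith
  · intro j
    have hnn := hT.nn j
    have hnm : 0 ≤ nm U L (T j) := sum_nonneg fun w _ => sum_nonneg fun b _ => hnn w b
    have h0 : ∑ w ∈ U \ U.filter (fun u => retv S U o m K ω u),
        ∑ b ∈ (L w).filter (fun a => alive S U L l m K x q o ω w a), T j w b ≤
        G3 S U L l m K x q o (T j) ω := by
      unfold G3
      refine le_trans ?_ (sum_le_sum_of_subset_of_nonneg (s := U \ U.filter (fun u =>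
        retv S U o m K ω u)) sdiff_subset fun w _ _ => sum_nonneg fun b _ => ?_)
      · refine sum_le_sum fun w hw => ?_
        rw [mem_sdiff] at hw
        have hw2 : ¬ retv S U o m K ω w := fun h => hw.2 ((hB w).2 h)
        rw [sum_filter]
        refine sum_le_sum fun b _ => ?_
        by_cases hal : alive S U L l m K x q o ω w b
        · obtain ⟨-, h2, h3, h4⟩ := id hal
          rw [if_pos hal, if_pos ⟨hw2, h2, h3, h4⟩]
        · rw [if_neg hal]
          split_ifs
          · exact hnn w b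
          · exact le_rfl
      · split_ifs
        · exact hnn w b
        · exact le_rfl
    have h1 := a3 j
    have h2 := hG.c3 j
    have h3 : (1 / 2 : ℝ) ^ K * nm U L (T j) ≤ nm U L (T j) / l := by
      rcases U.eq_empty_or_nonempty with hU | ⟨u, hu⟩
      · have h4 : nm U L (T j) = 0 := by
          unfold nm
          rw [hU, sum_empty]
        rw [h4]
        simp
      · have h4 : l ≤ D := by
          rw [← hH.card u hu]
          exact (card_le_univ _).trans hH.col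
        have h5 := hH.half_pow
        have h6 : (l : ℝ) ≤ D := by exact_mod_cast h4
        have h7 : (1 / 2 : ℝ) ^ K * l ≤ 1 :=
          (mul_le_mul_of_nonneg_left h6 (by positivity)).trans h5
        rw [le_div_iff₀ hl]
        nlinarith
    have h4 : 0 ≤ Real.sqrt (sq S U L (T j) * Lam) := Real.sqrt_nonneg _
    have h5 : 24 ^ 2 * Real.sqrt (sq S U L (T j) * Lam) ≤
        (K : ℝ) ^ 2 * Real.sqrt (sq S U L (T j) * Lam) := mul_le_mul_of_nonneg_right hK2 h4
    have h6 : 4 * nm U L (T j) / l = 2 * nm U L (T j) / l + 2 * (nm U L (T j) / l) := by ring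
    rw [h6]
    nlinarith
  · intro j
    have hnn := hT.nn j
    have hnm : 0 ≤ nm U L (T j) := sum_nonneg fun w _ => sum_nonneg fun b _ => hnn w b
    have h0 : ∑ w ∈ U.filter (fun u => retv S U o m K ω u), T j w (o w) =
        G4 S U m K o (T j) ω := by
      unfold G4
      rw [sum_filter]
    rw [h0]
    refine (a4 j).trans ?_
    have h2 := hG.c4 j
    have h3 := Step2_num (A := μ j * nm U L (T j) / l) (n := nm U L (T j) / l)
      (X := ∑ w ∈ U, T j w (o w)) hb.le hb' hK (hT.pos j) hH.L1 (by positivity)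
      (by ring) h2
    have h4 : bet m K * nm U L (T j) / l = bet m K * (nm U L (T j) / l) := by ring
    rw [h4]
    exact h3

end Pool.TCU
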